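import Pool.Agent.MP_e6c106_co.H32.Main

/-! The four edge-orderings 14523, 14532, 15423, 21453 of the path with five edges have
quasi-linear extremal functions. -/

namespace Pool.Agent.Results.MP_e6c106_co.QuasiLinear

open Finset Pool.Agent.MP_e6c106_co.H32

/-- The graph `G`, with the linear order `ord` on its edges, contains the edge-ordered path on
six vertices whose `i`-th edge has rank `σ i`. -/
def Contains {n : ℕ} (G : SimpleGraph (Fin n)) (ord : LinearOrder G.edgeSet) (σ : Fin 5 → ℕ) :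
    Prop :=
  ∃ v : Fin 6 → Fin n, Function.Injective v ∧ ∃ e : Fin 5 → G.edgeSet,
    (∀ i : Fin 5, (e i : Sym2 (Fin n)) = s(v i.castSucc, v i.succ)) ∧
    ∀ i j : Fin 5, σ i < σ j → ord.lt (e i) (e j)

lemma exists_rank (α : Type*) [Fintype α] (ord : LinearOrder α) :
    ∃ r : α → ℕ, (∀ a, r a < Fintype.card α) ∧ Function.Injective r ∧
      ∀ a b, r a < r b → ord.lt a b :=
  ⟨fun a => (monoEquivOfFin α rfl).symm a, fun _ => Fin.is_lt _,
    fun _ _ h => (monoEquivOfFin α rfl).symm.injective (Fin.ext h),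
    fun _ _ h => (monoEquivOfFin α rfl).symm.lt_iff_lt.1 h⟩

lemma exists_label {n : ℕ} (G : SimpleGraph (Fin n)) [DecidableRel G.Adj]
    (ord : LinearOrder G.edgeSet) :
    ∃ l : Fin n × Fin n → ℕ, Good (univ.filter fun a => G.Adj a.1 a.2) l G.edgeSet.ncard ∧
      ∀ (u v x y : Fin n) (h : G.Adj u v) (h' : G.Adj x y), l (u, v) < l (x, y) →
        ord.lt ⟨s(u, v), h⟩ ⟨s(x, y), h'⟩ := by
  classical
  have hc : Fintype.card G.edgeSet = G.edgeSet.ncard := by
    rw [← Nat.card_eq_fintype_card, Nat.card_coe_set_eq]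
  obtain ⟨r, hr1, hr2, hr3⟩ := exists_rank G.edgeSet ord
  refine ⟨fun a => if h : G.Adj a.1 a.2 then r ⟨s(a.1, a.2), h⟩ else 0,
    ⟨fun a ha => ?_, fun a ha => ?_, fun u v => ?_, fun a ha b hb hab => ?_, fun a ha => ?_⟩,
    fun u v x y h h' hl => ?_⟩
  · simpa using (mem_filter.1 ha).2.symm
  · exact (mem_filter.1 ha).2.ne
  · by_cases h : G.Adj u v
    · simp only [h, h.symm, dite_true]
      congr 2
      exact Sym2.eq_swap
    · have h' : ¬ G.Adj v u := fun h' => h h'.symm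
      simp [h, h']
  · simp only [(mem_filter.1 ha).2, (mem_filter.1 hb).2, dite_true] at hab
    have h1 := congrArg Subtype.val (hr2 hab)
    rcases Sym2.eq_iff.1 h1 with h | h
    · exact .inl (Prod.ext h.1 h.2)
    · exact .inr (Prod.ext h.1 h.2)
  · simp only [(mem_filter.1 ha).2, dite_true]
    exact hc ▸ hr1 _
  · simp only [h, h', dite_true] at hl
    exact hr3 _ _ hl

lemma contains_of {n : ℕ} {G : SimpleGraph (Fin n)} {ord : LinearOrder G.edgeSet}
    {l : Fin n × Fin n → ℕ} {σ : Fin 5 → ℕ}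
    (hl : ∀ (u v x y : Fin n) (h : G.Adj u v) (h' : G.Adj x y), l (u, v) < l (x, y) →
      ord.lt ⟨s(u, v), h⟩ ⟨s(x, y), h'⟩) {a b c d e f : Fin n} (hn : [a, b, c, d, e, f].Nodup)
    (h₁ : G.Adj a b) (h₂ : G.Adj b c) (h₃ : G.Adj c d) (h₄ : G.Adj d e) (h₅ : G.Adj e f)
    (h : ∀ i j, σ i < σ j → ![l (a, b), l (b, c), l (c, d), l (d, e), l (e, f)] i <
      ![l (a, b), l (b, c), l (c, d), l (d, e), l (e, f)] j) : Contains G ord σ := by
  have hadj : ∀ i : Fin 5, G.Adj (![a, b, c, d, e, f] i.castSucc) (![a, b, c, d, e, f] i.succ) := by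
    intro i
    fin_cases i <;> assumption
  refine ⟨![a, b, c, d, e, f], List.nodup_ofFn.1 (by simpa using hn),
    fun i => ⟨_, hadj i⟩, fun _ => rfl, fun i j hij => hl _ _ _ _ (hadj i) (hadj j) ?_⟩
  have := h i j hij
  fin_cases i <;> fin_cases j <;> exact this

lemma card_bound {n : ℕ} (hn : 2 ≤ n) {m x : ℕ} (hm : m ≤ n * n)
    (hx : x ≤ 2 * (38 * (Nat.log 2 (m + 1) + 1) ^ 2 + 7 + 1) * (Nat.log 2 n + 1) * n) :
    (x : ℝ) ≤ 32000 * n * Real.log n ^ 3 := by
  set L := Nat.log 2 n with hL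
  have h1 : 1 ≤ L := Nat.le_log_of_pow_le (by norm_num) (by simpa using hn)
  have h2 : n < 2 ^ (L + 1) := Nat.lt_pow_succ_log_self (by norm_num) n
  have h3 : Nat.log 2 (m + 1) ≤ 2 * L + 2 := by
    have : m + 1 ≤ 2 ^ (2 * L + 2) := by
      have := Nat.mul_self_lt_mul_self h2
      rw [← pow_add, show L + 1 + (L + 1) = 2 * L + 2 by ring] at this
      omega
    simpa using Nat.log_mono_right (b := 2) this
  have h4 : (Nat.log 2 (m + 1) + 1) ^ 2 ≤ (5 * L) ^ 2 := Nat.pow_le_pow_left (by omega) 2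
  have h5 : 1 ≤ L ^ 2 := Nat.one_le_pow _ _ h1
  have h6 : x ≤ 4000 * n * L ^ 3 := by
    calc x ≤ 2 * (1000 * L ^ 2) * (2 * L) * n := by
          refine hx.trans ?_
          rw [mul_pow] at h4
          gcongr <;> omega
      _ = 4000 * n * L ^ 3 := by ring
  have h7 : (L : ℝ) ≤ 2 * Real.log n := by
    have h8 : (2 : ℝ) ^ L ≤ n := by exact_mod_cast Nat.pow_log_le_self 2 (by omega : n ≠ 0)
    have h9 := Real.log_le_log (by positivity) h8
    rw [Real.log_pow] at h9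
    have := Real.log_two_gt_d9
    have : (0 : ℝ) ≤ L := by positivity
    nlinarith
  calc (x : ℝ) ≤ 4000 * n * (L : ℝ) ^ 3 := by exact_mod_cast h6
    _ ≤ 4000 * n * (2 * Real.log n) ^ 3 := by gcongr
    _ = 32000 * n * Real.log n ^ 3 := by ring

theorem result :
    ∀ σ ∈ ({![1, 4, 5, 2, 3], ![1, 4, 5, 3, 2], ![1, 5, 4, 2, 3], ![2, 1, 4, 5, 3]} :
      Set (Fin 5 → ℕ)), ∃ C : ℝ, ∀ n : ℕ, 2 ≤ n →
      ∀ (G : SimpleGraph (Fin n)) (ord : LinearOrder G.edgeSet), ¬ Contains G ord σ →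
        (G.edgeSet.ncard : ℝ) ≤ C * n * Real.log n ^ 3 := by
  classical
  intro σ hσ
  refine ⟨32000, fun n hn G ord hG => ?_⟩
  obtain ⟨l, hgood, hl⟩ := exists_label G ord
  set D := univ.filter fun a : Fin n × Fin n => G.Adj a.1 a.2 with hD
  have hD' : ∀ {u v}, (u, v) ∈ D → G.Adj u v := fun h => (mem_filter.1 h).2
  have h1 : G.edgeSet.ncard ≤ #D := by
    have : G.edgeSet ⊆ (D.image fun a => s(a.1, a.2) : Finset (Sym2 (Fin n))) := by
      intro e he
      induction e using Sym2.ind with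
      | _ u v => exact mem_coe.2 (mem_image.2 ⟨(u, v), mem_filter.2 ⟨mem_univ _, he⟩, rfl⟩)
    have := Set.ncard_le_ncard this (finite_toSet _)
    rw [Set.ncard_coe_finset] at this
    exact this.trans card_image_le
  have h2 : #D ≤ n * n := (card_filter_le _ _).trans (by simp)
  have h3 := bound hgood ?_ (Nat.log 2 n + 1) univ
    (by simpa using (Nat.lt_pow_succ_log_self (by norm_num) n).le)
  · rw [filter_true_of_mem (by simp), card_univ, Fintype.card_fin] at h3
    exact card_bound hn (h1.trans h2) (h1.trans h3)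
  simp only [Set.mem_insert_iff, Set.mem_singleton_iff] at hσ
  rcases hσ with rfl | rfl | rfl | rfl
  · refine .inl fun y b₁ x b₂ z b₃ hn k₁ k₂ k₃ k₄ k₅ hR => hG (contains_of hl hn (hD' k₁) (hD' k₂)
      (hD' k₃) (hD' k₄) (hD' k₅) fun i j => ?_)
    unfold R14523 at hR
    fin_cases i <;> fin_cases j <;> simp <;> omega
  · refine .inr (.inl fun y b₁ x b₂ z b₃ hn k₁ k₂ k₃ k₄ k₅ hR => hG (contains_of hl hn (hD' k₁)
      (hD' k₂) (hD' k₃) (hD' k₄) (hD' k₅) fun i j => ?_))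
    unfold R14532 at hR
    fin_cases i <;> fin_cases j <;> simp <;> omega
  · refine .inr (.inr (.inl fun y b₁ x b₂ z b₃ hn k₁ k₂ k₃ k₄ k₅ hR => hG (contains_of hl hn
      (hD' k₁) (hD' k₂) (hD' k₃) (hD' k₄) (hD' k₅) fun i j => ?_)))
    unfold R15423 at hR
    fin_cases i <;> fin_cases j <;> simp <;> omega
  · refine .inr (.inr (.inr fun y b₁ x b₂ z b₃ hn k₁ k₂ k₃ k₄ k₅ hR => hG (contains_of hl
      (by simpa using List.nodup_reverse.2 hn) (hD' k₅).symm (hD' k₄).symm (hD' k₃).symm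
      (hD' k₂).symm (hD' k₁).symm fun i j => ?_)))
    unfold R35412 at hR
    rw [hgood.lsymm b₃ z, hgood.lsymm z b₂, hgood.lsymm b₂ x, hgood.lsymm x b₁, hgood.lsymm b₁ y]
    fin_cases i <;> fin_cases j <;> simp <;> omega

end Pool.Agent.Results.MP_e6c106_co.QuasiLinear
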